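import Mathlib
import Pool.Agent.H28.Shear2

open Filter Topology Metric Complex
open scoped InnerProductSpace ComplexConjugate
open Pool.Agent.H28.Shear

namespace Pool.Agent.Results.MP_2482e1_an.Sharp

/-- `ℂⁿ` with the Euclidean norm. -/
abbrev E (n : ℕ) : Type := EuclideanSpace ℂ (Fin n)

/-- The Carathéodory family `𝓜` of the unit ball of `ℂⁿ`. -/
def Car (n : ℕ) : Set (E n → E n) :=
  {h | AnalyticOnNhd ℂ h (ball 0 1) ∧ h 0 = 0 ∧ fderiv ℂ h 0 = ContinuousLinearMap.id ℂ (E n) ∧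
    ∀ z ∈ ball (0 : E n) 1, z ≠ 0 → 0 < (∑ j, h z j * conj (z j)).re}

/-- `P_m(z) = (1 / m!) D^m h(0)(z, …, z)`. -/
noncomputable def P {n : ℕ} (m : ℕ) (h : E n → E n) (z : E n) : E n :=
  (m.factorial : ℂ)⁻¹ • iteratedFDeriv ℂ m h 0 (fun _ => z)

/-- `‖P_m‖ = max {‖P_m(z)‖ : ‖z‖ = 1}`. -/
noncomputable def normP {n : ℕ} (m : ℕ) (h : E n → E n) : ℝ :=
  sSup {r | ∃ z : E n, ‖z‖ = 1 ∧ r = ‖P m h z‖}

/-- `C_{m,n} = sup {‖P_m‖ : h ∈ 𝓜}`. -/
noncomputable def C (m n : ℕ) : ℝ := sSup (normP m '' Car n)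

lemma inner_eq {n : ℕ} (z v : E n) : ⟪z, v⟫_ℂ = ∑ j, v j * conj (z j) := by
  simp [PiLp.inner_apply]

lemma inner_P {n m : ℕ} (h : E n → E n) (w z : E n) :
    ⟪w, P m h z⟫_ℂ = ⟪w, iteratedFDeriv ℂ m h 0 (fun _ => z)⟫_ℂ / m.factorial := by
  rw [P, inner_smul_right, div_eq_inv_mul]

lemma quo_eq {m : ℕ} (hm : 2 ≤ m) :
    quo 1 1 m (1 / (m + 1)) = √(((m : ℝ) + 1) ^ (m + 1) / (m : ℝ) ^ m) := by
  have hm0 : (0 : ℝ) < m := by exact_mod_cast (by omega : 0 < m)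
  have e : 1 - 1 / ((m : ℝ) + 1) = m / (m + 1) := by field_simp; ring
  symm
  rw [Real.sqrt_eq_iff_mul_self_eq (by positivity) (by unfold quo; rw [e]; positivity), ← sq,
    quo, e, div_pow, mul_pow, ← pow_mul, mul_comm m 2, pow_mul, Real.sq_sqrt (by positivity),
    Real.sq_sqrt (by positivity), div_pow, pow_succ ((m : ℝ) + 1) m]
  field_simp
  ring

lemma upper {n m : ℕ} (hm : 2 ≤ m) {h : E n → E n} (hh : h ∈ Car n) {z : E n} (hz : ‖z‖ = 1) :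
    ‖P m h z‖ ≤ quo 1 1 m (1 / (m + 1)) := by
  obtain ⟨ha, h0, hd, hpos⟩ := hh
  have hm0 : (0 : ℝ) < m := by exact_mod_cast (by omega : 0 < m)
  have hpos' : ∀ z ∈ ball (0 : E n) 1, 0 ≤ (⟪z, h z⟫_ℂ).re := by
    intro z hz
    by_cases h : z = 0
    · simp [h]
    · rw [inner_eq]; exact (hpos z hz h).le
  refine le_quo (by positivity) (by rw [div_lt_one (by positivity)]; linarith) ?_
  intro x y hx hy hxy
  by_cases hv : P m h z = 0
  · rw [hv, norm_zero, zero_mul, zero_mul]; positivity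
  have hn : 0 < ‖P m h z‖ := norm_pos_iff.2 hv
  set w : E n := ((‖P m h z‖⁻¹ : ℝ) : ℂ) • P m h z with hw
  have hw1 : ‖w‖ = 1 := by
    rw [hw, norm_smul, norm_real, norm_inv, norm_norm, inv_mul_cancel₀ hn.ne']
  have := coef_le ha h0 hpos' hz hw1 (α := 1) (β := 1)
    (by simp [hd, inner_self_eq_norm_sq_to_K, hw1]) (by simp [hd, inner_self_eq_norm_sq_to_K, hz])
    hm x y hx hy hxy
  rw [← inner_P] at this
  have e : ‖⟪w, P m h z⟫_ℂ‖ = ‖P m h z‖ := by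
    rw [hw, inner_smul_left, inner_self_eq_norm_sq_to_K, norm_mul, conj_ofReal, norm_real,
      norm_inv, norm_norm, norm_pow]
    simp only [coe_algebraMap, norm_real, norm_norm]
    field_simp
  rwa [e] at this

lemma attained {n m : ℕ} (hn : 2 ≤ n) (hm : 2 ≤ m) :
    ∃ h ∈ Car n, ∃ z : E n, ‖z‖ = 1 ∧ quo 1 1 m (1 / (m + 1)) = ‖P m h z‖ := by
  have hm0 : (0 : ℝ) < m := by exact_mod_cast (by omega : 0 < m)
  set a := quo 1 1 m (1 / (m + 1)) with ha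
  have ha0 : 0 ≤ a := by rw [ha, quo_eq hm]; positivity
  set i : Fin n := ⟨0, by omega⟩
  set j : Fin n := ⟨1, by omega⟩
  have hij : i ≠ j := by simp [i, j]
  set e : E n := EuclideanSpace.single j 1 with he
  set w : E n := EuclideanSpace.single i 1 with hw
  have he1 : ‖e‖ = 1 := by simp [he]
  have hw1 : ‖w‖ = 1 := by simp [hw]
  have hmem : shear (ContinuousLinearMap.id ℂ (E n)) e w a m ∈ Car n := by
    refine ⟨shear_an _ _ _ _ _ _, by simp [shear, show m ≠ 0 by omega], shear_fderiv _ _ _ _ hm, ?_⟩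
    intro z hz hz0
    rw [← inner_eq]
    refine lt_of_lt_of_le ?_ (shear_re _ e w ha0 m z)
    have e1 : (⟪z, ContinuousLinearMap.id ℂ (E n) z⟫_ℂ).re = ‖z‖ ^ 2 := by
      simp [inner_self_eq_norm_sq_to_K, ← ofReal_pow]
    have e2 : ‖⟪w, z⟫_ℂ‖ = ‖z i‖ := by simp [hw, EuclideanSpace.inner_single_left]
    have e3 : ‖⟪e, z⟫_ℂ‖ = ‖z j‖ := by simp [he, EuclideanSpace.inner_single_left]
    have e4 : ‖z i‖ ^ 2 + ‖z j‖ ^ 2 ≤ ‖z‖ ^ 2 := by
      rw [EuclideanSpace.norm_sq_eq, ← Finset.sum_pair (f := fun l => ‖z l‖ ^ 2) hij]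
      exact Finset.sum_le_sum_of_subset_of_nonneg (Finset.subset_univ _)
        fun _ _ _ => by positivity
    have hz1 : ‖z‖ < 1 := by simpa using hz
    have hz2 : 0 < ‖z‖ := norm_pos_iff.2 hz0
    rw [e1, e2, e3]
    rcases (show 0 ≤ ‖z i‖ ^ 2 + ‖z j‖ ^ 2 by positivity).eq_or_lt with h | h
    · have : ‖z i‖ = 0 := by nlinarith [sq_nonneg ‖z i‖, sq_nonneg ‖z j‖]
      rw [this]; simpa using pow_pos hz2 2
    · have := quo_strict (a := a) one_pos one_pos hm (fun s h0 h1 => quo_min one_pos one_pos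
        (by omega) (by positivity) (by rw [div_lt_one (by positivity)]; linarith)
        (by field_simp; ring) h0 h1) (norm_nonneg (z i)) (norm_nonneg (z j)) h (by nlinarith)
      linarith
  refine ⟨_, hmem, e, he1, le_antisymm ?_ (upper hm hmem he1)⟩
  have h1 := shear_coef (ContinuousLinearMap.id ℂ (E n)) he1 hw1 a hm
  rw [← inner_P] at h1
  have h2 := norm_inner_le_norm (𝕜 := ℂ) w (P m (shear (ContinuousLinearMap.id ℂ (E n)) e w a m) e)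
  rw [h1, hw1, one_mul, norm_real, Real.norm_of_nonneg ha0] at h2
  exact h2

theorem result (n m : ℕ) (hn : 2 ≤ n) (hm : 2 ≤ m) :
    IsGreatest {r | ∃ h ∈ Car n, ∃ z : E n, ‖z‖ = 1 ∧ r = ‖P m h z‖}
      √(((m : ℝ) + 1) ^ (m + 1) / (m : ℝ) ^ m) ∧
    IsGreatest (normP m '' Car n) √(((m : ℝ) + 1) ^ (m + 1) / (m : ℝ) ^ m) ∧
    C m n = √(((m : ℝ) + 1) ^ (m + 1) / (m : ℝ) ^ m) := by
  rw [← quo_eq hm]
  obtain ⟨h, hh, z, hz, he⟩ := attained hn hm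
  have h2 : IsGreatest (normP m '' Car n) (quo 1 1 m (1 / (m + 1))) := by
    refine ⟨⟨h, hh, IsGreatest.csSup_eq ⟨⟨z, hz, he⟩, ?_⟩⟩, ?_⟩
    · rintro _ ⟨v, hv, rfl⟩
      exact upper hm hh hv
    · rintro _ ⟨g, hg, rfl⟩
      refine csSup_le ⟨_, z, hz, rfl⟩ ?_
      rintro _ ⟨v, hv, rfl⟩
      exact upper hm hg hv
  refine ⟨⟨⟨h, hh, z, hz, he⟩, ?_⟩, h2, h2.csSup_eq⟩
  rintro _ ⟨g, hg, v, hv, rfl⟩
  exact upper hm hg hv

end Pool.Agent.Results.MP_2482e1_an.Sharp
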